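import Pool.Agent.Helper26.DA.Goals

/-!
# Project DA, packet HB: `f_k ∈ m * MI (e - 2) f` over a two-generated local factorial domain
-/

set_option autoImplicit false

namespace Pool.Agent.Helper93.DA

open IsLocalRing Pool.Agent.Helper26.DA

universe w

/-- The zeroth minor ideal is everything. -/
theorem MI_zero {R : Type w} [CommRing R] {e : ℕ} (f : Fin e → R) : MI 0 f = ⊤ := by
  rw [Ideal.eq_top_iff_one]
  apply Ideal.subset_span
  refine ⟨fun i => i.elim0, fun i => i.elim0, fun i => i.elim0, ?_⟩
  simp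

/-- Adding a syzygy with a unit coordinate. -/
theorem MI_succ {R : Type w} [CommRing R] {N : ℕ} (n : ℕ) (f : Fin (N + 1) → R) (c : Fin (N + 1) → R)
    (hc : ∑ k, c k * f k = 0) (k : Fin (N + 1)) (hk : IsUnit (c k)) :
    MI n (fun l => f (k.succAbove l)) ≤ MI (n + 1) f := by
  unfold MI
  rw [Ideal.span_le]
  rintro m ⟨c', l', hc', rfl⟩
  have hmem : (Matrix.of fun i j : Fin (n + 1) =>
      (Fin.cons c (fun i => Fin.insertNth k 0 (c' i)) : Fin (n + 1) → Fin (N + 1) → R) i
        ((Fin.cons k (fun j => k.succAbove (l' j)) : Fin (n + 1) → Fin (N + 1)) j)).det ∈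
      Ideal.span {m | ∃ (c : Fin (n + 1) → Fin (N + 1) → R) (l : Fin (n + 1) → Fin (N + 1)),
        (∀ i, ∑ k, c i k * f k = 0) ∧ m = (Matrix.of fun i j => c i (l j)).det} := by
    apply Ideal.subset_span
    refine ⟨_, _, ?_, rfl⟩
    intro i
    refine Fin.cases ?_ (fun i => ?_) i
    · simpa using hc
    · rw [Fin.sum_univ_succAbove _ k]
      simp only [Fin.cons_succ, Fin.insertNth_apply_same, Fin.insertNth_apply_succAbove, zero_mul,
        zero_add]
      exact hc' i
  have hdet : (Matrix.of fun i j : Fin (n + 1) =>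
      (Fin.cons c (fun i => Fin.insertNth k 0 (c' i)) : Fin (n + 1) → Fin (N + 1) → R) i
        ((Fin.cons k (fun j => k.succAbove (l' j)) : Fin (n + 1) → Fin (N + 1)) j)).det =
      c k * (Matrix.of fun i j => c' i (l' j)).det := by
    rw [Matrix.det_succ_column_zero, Fin.sum_univ_succ]
    have h0 : ∀ i : Fin n, ((-1 : R) ^ ((i.succ : Fin (n + 1)) : ℕ)) *
        (Matrix.of fun i j : Fin (n + 1) =>
      (Fin.cons c (fun i => Fin.insertNth k 0 (c' i)) : Fin (n + 1) → Fin (N + 1) → R) i
        ((Fin.cons k (fun j => k.succAbove (l' j)) : Fin (n + 1) → Fin (N + 1)) j)) i.succ 0 *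
        ((Matrix.of fun i j : Fin (n + 1) =>
      (Fin.cons c (fun i => Fin.insertNth k 0 (c' i)) : Fin (n + 1) → Fin (N + 1) → R) i
        ((Fin.cons k (fun j => k.succAbove (l' j)) : Fin (n + 1) → Fin (N + 1)) j)).submatrix
          i.succ.succAbove Fin.succ).det = 0 := by
      intro i
      simp
    rw [Finset.sum_eq_zero (fun i _ => h0 i), add_zero]
    simp only [Fin.val_zero, pow_zero, one_mul, Matrix.of_apply, Fin.cons_zero]
    congr 1
    congr 1
    ext i j
    simp [Matrix.submatrix]
  rw [hdet] at hmem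
  obtain ⟨u, hu⟩ := hk
  have h2 := Ideal.mul_mem_left _ ((u⁻¹ : Rˣ) : R) hmem
  rw [← hu, ← mul_assoc, Units.inv_mul, one_mul] at h2
  exact h2

/-- Extracting the common factor. -/
theorem extract {R : Type w} [CommRing R] [IsDomain R] [UniqueFactorizationMonoid R] {N : ℕ}
    (f : Fin (N + 1) → R) (hf : f ≠ 0) :
    ∃ (g : R) (f' : Fin (N + 1) → R), g ≠ 0 ∧ (∀ k, f k = g * f' k) ∧ f' ≠ 0 ∧
      ∀ π : R, Prime π → ∃ k, ¬ π ∣ f' k := by
  classical
  let _ : StrongNormalizationMonoid R := UniqueFactorizationMonoid.strongNormalizationMonoid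
  let _ : NormalizedGCDMonoid R := UniqueFactorizationMonoid.toNormalizedGCDMonoid R
  obtain ⟨f', h1, h2⟩ := Finset.extract_gcd f (Finset.univ_nonempty (α := Fin (N + 1)))
  refine ⟨Finset.univ.gcd f, f', ?_, fun k => h1 k (Finset.mem_univ k), ?_, ?_⟩
  · intro h
    apply hf
    ext k
    rw [h1 k (Finset.mem_univ k), h, zero_mul]
    rfl
  · rintro rfl
    apply hf
    ext k
    rw [h1 k (Finset.mem_univ k)]
    simp
  · intro π hπ
    by_contra hcon
    push Not at hcon
    have : π ∣ Finset.univ.gcd f' := Finset.dvd_gcd (fun k _ => hcon k)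
    rw [h2] at this
    exact hπ.not_isUnit (isUnit_of_dvd_one this)

theorem gHB : G_HB.{w} := by
  intro hFRE hMIN hEXP R _ _ _ _ _ x y hxy e
  induction e with
  | zero => intro f _ k; exact k.elim0
  | succ e ih =>
    intro f hf k0
    by_cases he : e ≤ 1
    · have h : e + 1 - 2 = 0 := by omega
      rw [h, MI_zero, Ideal.mul_top]
      exact hf k0
    obtain ⟨n, rfl⟩ : ∃ n, e = n + 2 := ⟨e - 2, by omega⟩
    have hn : n + 2 + 1 - 2 = n + 1 := by omega
    rw [hn]
    by_cases hA : ∃ c : Fin (n + 2 + 1) → R, ∑ k, c k * f k = 0 ∧ ∃ k, IsUnit (c k)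
    · obtain ⟨c, hc, k, hk⟩ := hA
      have hle := MI_succ n f c hc k hk
      have hl : ∀ l : Fin (n + 2), f (k.succAbove l) ∈ maximalIdeal R * MI (n + 1) f := by
        intro l
        have := ih (fun l => f (k.succAbove l)) (fun l => hf _) l
        have hn2 : n + 2 - 2 = n := by omega
        rw [hn2] at this
        exact Ideal.mul_mono_right hle this
      rcases Fin.eq_self_or_eq_succAbove k k0 with h | ⟨l, h⟩
      · subst h
        obtain ⟨u, hu⟩ := hk
        rw [Fin.sum_univ_succAbove _ k0] at hc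
        have h1 : f k0 = ((u⁻¹ : Rˣ) : R) * (-∑ l, c (k0.succAbove l) * f (k0.succAbove l)) := by
          have h2 : c k0 * f k0 = -∑ l, c (k0.succAbove l) * f (k0.succAbove l) :=
            eq_neg_of_add_eq_zero_left hc
          rw [← h2, ← hu, ← mul_assoc, Units.inv_mul, one_mul]
        rw [h1]
        apply Ideal.mul_mem_left
        apply Submodule.neg_mem
        apply Submodule.sum_mem
        intro l _
        exact Ideal.mul_mem_left _ _ (hl l)
      · rw [h]
        exact hl l
    · push Not at hA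
      have hm : ∀ c : Fin (n + 2 + 1) → R, ∑ k, c k * f k = 0 → ∀ k, c k ∈ maximalIdeal R := by
        intro c hc k
        rw [mem_maximalIdeal]
        exact hA c hc k
      have hf0 : f ≠ 0 := by
        intro h
        have h1 := hA (fun _ => 1) (by simp [h]) 0
        exact h1 isUnit_one
      obtain ⟨g, f', hg, hgf, hf', hcop⟩ := extract f hf0
      have hsyz : ∀ c : Fin (n + 2 + 1) → R, ∑ k, c k * f k = 0 ↔ ∑ k, c k * f' k = 0 := by
        intro c
        have : ∑ k, c k * f k = g * ∑ k, c k * f' k := by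
          rw [Finset.mul_sum]
          apply Finset.sum_congr rfl
          intro k _
          rw [hgf k]
          ring
        rw [this, mul_eq_zero]
        constructor
        · rintro (h | h)
          · exact absurd h hg
          · exact h
        · exact fun h => Or.inr h
      obtain ⟨z, hz1, hz2⟩ := hFRE R x y hxy (n + 2) f' hf'
      have h3 := hMIN R (n + 2) f' z hf' hz1 hz2 hcop k0
      have h4 := hEXP R (n + 2 + 1) f' (n + 1) (maximalIdeal R)
        (fun c hc k => hm c ((hsyz c).mpr hc) k) h3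
      have h5 : MI (n + 1) f' = MI (n + 1) f := by
        unfold MI
        congr 1
        ext m
        simp only [Set.mem_ofPred_eq]
        constructor
        · rintro ⟨c, l, h, rfl⟩
          exact ⟨c, l, fun i => (hsyz _).mpr (h i), rfl⟩
        · rintro ⟨c, l, h, rfl⟩
          exact ⟨c, l, fun i => (hsyz _).mp (h i), rfl⟩
      rw [h5] at h4
      rw [hgf k0]
      exact Ideal.mul_mem_left _ _ h4

end Pool.Agent.Helper93.DA
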